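import Mathlib
import Pool.Agent.Q260.BC.Defs

/-! The ratio of the upper broadcast number to the upper domination number is unbounded. -/

open Finset Pool.Agent.Q260.BC

namespace Pool.Agent.Results.MP_9b093e_co.RatioInfinite

/-- The supremum of `Γ_b(G)/Γ(G)` over connected graphs with at least two vertices. -/
noncomputable def rho : ENNReal :=
  ⨆ (V : Type) (_ : Fintype V) (G : SimpleGraph V) (_ : G.Connected) (_ : 2 ≤ Fintype.card V),
    (upperBroadcast G : ENNReal) / (upperDom G : ENNReal)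

/-- vertices: `inl (i, j)` in column `i` and level `j ≤ K`; `inr a` sees level `a + 1`. -/
abbrev W (m K : ℕ) := (Fin m × Fin (K + 1)) ⊕ Fin K

/-- adjacency relation -/
def adjR (m K : ℕ) : W m K → W m K → Prop
  | Sum.inl (i, j), Sum.inl (i', j') =>
      (j = j' ∧ i ≠ i') ∨ (i = i' ∧ ((j : ℕ) + 1 = j' ∨ (j' : ℕ) + 1 = j))
  | Sum.inl (_, j), Sum.inr a => j = a.succ
  | Sum.inr a, Sum.inl (_, j) => j = a.succ
  | Sum.inr _, Sum.inr _ => False

/-- the graph -/
def gr (m K : ℕ) : SimpleGraph (W m K) where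
  Adj := adjR m K
  symm := ⟨by
    rintro (⟨i, j⟩ | a) (⟨i', j'⟩ | a') h
    · rcases h with ⟨h1, h2⟩ | ⟨h1, h2⟩
      · exact Or.inl ⟨h1.symm, h2.symm⟩
      · exact Or.inr ⟨h1.symm, h2.symm⟩
    · exact h
    · exact h
    · exact h⟩
  loopless := ⟨by
    rintro (⟨i, j⟩ | a) h
    · rcases h with ⟨h1, h2⟩ | ⟨h1, h2⟩
      · exact h2 rfl
      · omega
    · exact h⟩

/-- level -/
def lev {m K : ℕ} : W m K → Fin (K + 1)
  | Sum.inl (_, j) => j
  | Sum.inr a => a.succ

/-- dominating broadcast -/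
def bc (m K : ℕ) : W m K → ℕ
  | Sum.inl (_, j) => if j = Fin.last K then K else 0
  | Sum.inr _ => 0

variable {m K : ℕ}

lemma up_reach (i : Fin m) (j : ℕ) : ∀ (d : ℕ) (h : j + d < K + 1),
    (gr m K).Reachable (Sum.inl (i, ⟨j, by omega⟩)) (Sum.inl (i, ⟨j + d, h⟩)) ∧
    (gr m K).dist (Sum.inl (i, ⟨j, by omega⟩)) (Sum.inl (i, ⟨j + d, h⟩)) ≤ d := by
  intro d
  induction d with
  | zero => intro h; simp
  | succ d ih =>
    intro h
    obtain ⟨h1, h2⟩ := ih (by omega)
    have hadj : (gr m K).Adj (Sum.inl (i, ⟨j + d, by omega⟩)) (Sum.inl (i, ⟨j + (d + 1), h⟩)) := by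
      right
      refine ⟨rfl, Or.inl ?_⟩
      simp
      omega
    refine ⟨h1.trans hadj.reachable, ?_⟩
    have h3 := h1.dist_triangle_left (w := Sum.inl (i, ⟨j + (d + 1), h⟩))
    have h4 := SimpleGraph.dist_eq_one_iff_adj.2 hadj
    omega

lemma conn (hm : 0 < m) : (gr m K).Connected := by
  have key : ∀ x : W m K, (gr m K).Reachable x (Sum.inl (⟨0, hm⟩, Fin.last K)) := by
    have h1 : ∀ (i : Fin m) (j : Fin (K + 1)),
        (gr m K).Reachable (Sum.inl (i, j)) (Sum.inl (⟨0, hm⟩, Fin.last K)) := by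
      intro i j
      have h2 : (gr m K).Reachable (Sum.inl (i, j)) (Sum.inl (⟨0, hm⟩, j)) := by
        by_cases hi : i = ⟨0, hm⟩
        · rw [hi]
        · apply SimpleGraph.Adj.reachable
          left
          exact ⟨rfl, hi⟩
      have h3 := (up_reach (K := K) (⟨0, hm⟩ : Fin m) j (K - j) (by omega)).1
      have h4 : (⟨(j : ℕ) + (K - j), by omega⟩ : Fin (K + 1)) = Fin.last K := by
        ext; simp; omega
      rw [h4] at h3
      exact h2.trans h3
    rintro (⟨i, j⟩ | a)
    · exact h1 i j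
    · have : (gr m K).Adj (Sum.inr a) (Sum.inl (⟨0, hm⟩, a.succ)) := rfl
      exact this.reachable.trans (h1 _ _)
  have : Nonempty (W m K) := ⟨Sum.inl (⟨0, hm⟩, Fin.last K)⟩
  exact SimpleGraph.Connected.mk fun x y => (key x).trans (key y).symm

/-- same level at least one: adjacent or equal -/
lemma same_lev {x y : W m K} (h : lev x = lev y) (h1 : (lev x : ℕ) ≠ 0) :
    x = y ∨ (gr m K).Adj x y := by
  rcases x with ⟨i, j⟩ | a <;> rcases y with ⟨i', j'⟩ | a'
  · change j = j' at h
    subst h
    by_cases hi : i = i'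
    · left; rw [hi]
    · right; left; exact ⟨rfl, hi⟩
  · right; exact h
  · right; exact h.symm
  · left
    change a.succ = a'.succ at h
    rw [Fin.succ_inj] at h
    rw [h]

lemma adj_lev {x y : W m K} (h : (gr m K).Adj x y) (hne : lev x ≠ lev y) :
    (lev x : ℕ) + 1 = lev y ∨ (lev y : ℕ) + 1 = lev x := by
  rcases x with ⟨i, j⟩ | a <;> rcases y with ⟨i', j'⟩ | a'
  · rcases h with ⟨h1, h2⟩ | ⟨h1, h2⟩
    · exact absurd h1 hne
    · exact h2
  · exact absurd h hne
  · exact absurd (show a.succ = j' from (show j' = a.succ from h).symm) hne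
  · exact absurd h (by exact fun h => h)

/-- every level at least one meets every dominating set -/
lemma lev_meets {D : Finset (W m K)} (hD : DomSet (gr m K) D) (j : Fin (K + 1))
    (hj : (j : ℕ) ≠ 0) : ∃ u ∈ D, lev u = j := by
  obtain ⟨a, rfl⟩ : ∃ a : Fin K, a.succ = j := by
    obtain ⟨a, ha⟩ := Fin.exists_succ_eq.2 (fun h => hj (by rw [h]; rfl) : j ≠ 0)
    exact ⟨a, ha⟩
  obtain ⟨v, hv, h | h⟩ := hD (Sum.inr a)
  · exact ⟨v, hv, by rw [← h]; rfl⟩
  · refine ⟨v, hv, ?_⟩
    rcases v with ⟨i, j⟩ | a'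
    · exact h
    · exact absurd h (by exact fun h => h)

lemma unique_lev {D : Finset (W m K)} (hD : MinDomSet (gr m K) D) {x y : W m K} (hx : x ∈ D)
    (hy : y ∈ D) (hxy : lev x = lev y) (h2 : 2 ≤ (lev x : ℕ)) : x = y := by
  classical
  by_contra hne
  apply hD.2 (D.erase x) (Finset.erase_ssubset hx)
  intro w
  obtain ⟨v, hv, hvw⟩ := hD.1 w
  by_cases hvx : v = x
  · subst hvx
    by_cases hl : lev w = lev v
    · refine ⟨y, Finset.mem_erase.2 ⟨fun h => hne h.symm, hy⟩, ?_⟩
      exact same_lev (hl.trans hxy) (by rw [hl]; omega)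
    · have hadj : (gr m K).Adj w v := by
        rcases hvw with h | h
        · exact absurd (by rw [h]) hl
        · exact h
      have hl1 : (lev w : ℕ) ≠ 0 := by
        rcases adj_lev hadj hl with h | h <;> omega
      obtain ⟨u, hu, hul⟩ := lev_meets hD.1 (lev w) hl1
      refine ⟨u, Finset.mem_erase.2 ⟨fun h => hl (by rw [← hul, h]), hu⟩, ?_⟩
      exact same_lev hul.symm hl1
  · exact ⟨v, Finset.mem_erase.2 ⟨hvx, hv⟩, hvw⟩

lemma dom_bound {D : Finset (W m K)} (hD : MinDomSet (gr m K) D) : D.card ≤ 2 * m + K + 2 := by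
  classical
  have h1 : (D.filter fun x => 2 ≤ (lev x : ℕ)).card ≤ K + 1 := by
    have : (D.filter fun x => 2 ≤ (lev x : ℕ)).card ≤ (Finset.univ : Finset (Fin (K + 1))).card := by
      apply Finset.card_le_card_of_injOn lev (fun x _ => by simp)
      intro x hx y hy hxy
      simp only [Finset.coe_filter, Set.mem_ofPred_eq] at hx hy
      exact unique_lev hD hx.1 hy.1 hxy hx.2
    simpa using this
  have h2 : (D.filter fun x => ¬ 2 ≤ (lev x : ℕ)).card ≤ 2 * m + 1 := by
    let T : Finset (Fin m × Fin 2 ⊕ Fin 1) := Finset.univ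
    have : (D.filter fun x => ¬ 2 ≤ (lev x : ℕ)).card ≤ T.card := by
      let φ : W m K → Fin m × Fin 2 ⊕ Fin 1 := fun x => match x with
        | Sum.inl (i, j) => Sum.inl (i, if (j : ℕ) = 0 then 0 else 1)
        | Sum.inr _ => Sum.inr 0
      apply Finset.card_le_card_of_injOn φ (fun x _ => by simp [T])
      intro x hx y hy hxy
      simp only [Finset.coe_filter, Set.mem_ofPred_eq] at hx hy
      rcases x with ⟨i, j⟩ | a <;> rcases y with ⟨i', j'⟩ | a'
      · simp only [φ, Sum.inl.injEq, Prod.mk.injEq] at hxy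
        obtain ⟨h1, h2⟩ := hxy
        have hx2 : ¬ 2 ≤ (j : ℕ) := hx.2
        have hy2 : ¬ 2 ≤ (j' : ℕ) := hy.2
        have : j = j' := by
          ext
          by_cases hj : (j : ℕ) = 0 <;> by_cases hj' : (j' : ℕ) = 0
          · omega
          · simp [hj, hj'] at h2
          · simp [hj, hj'] at h2
          · omega
        rw [h1, this]
      · simp [φ] at hxy
      · simp [φ] at hxy
      · have hx2 : ¬ 2 ≤ ((a.succ : Fin (K+1)) : ℕ) := hx.2
        have hy2 : ¬ 2 ≤ ((a'.succ : Fin (K+1)) : ℕ) := hy.2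
        simp only [Fin.val_succ] at hx2 hy2
        have : a = a' := by ext; omega
        rw [this]
    refine this.trans ?_
    simp [T]
    omega
  have h3 := Finset.card_filter_add_card_filter_not (s := D) (fun x => 2 ≤ (lev x : ℕ))
  omega

/-- the potential `ψ_i` -/
def psi (i : Fin m) : W m K → ℕ
  | Sum.inl (i', j) => if i' = i then j else j + 1
  | Sum.inr a => a + 1

lemma psi_lip (i : Fin m) (x y : W m K) (h : (gr m K).Adj x y) : psi i x ≤ psi i y + 1 := by
  rcases x with ⟨i1, j1⟩ | a <;> rcases y with ⟨i2, j2⟩ | a'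
  · rcases h with ⟨h1, h2⟩ | ⟨h1, h2⟩
    · subst h1
      simp only [psi]
      split_ifs <;> omega
    · subst h1
      simp only [psi]
      split_ifs <;> omega
  · have h' : j1 = a'.succ := h
    subst h'
    simp only [psi]
    split_ifs <;> simp
  · have h' : j2 = a.succ := h
    subst h'
    simp only [psi]
    split_ifs <;> simp
  · exact absurd h (by exact fun h => h)

lemma dist_bot_top_ge (hm : 0 < m) (i i' : Fin m) (hne : i' ≠ i) :
    K + 1 ≤ (gr m K).dist (Sum.inl (i, 0)) (Sum.inl (i', Fin.last K)) := by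
  have := lip_le_dist (conn hm) (psi i) (psi_lip i) (Sum.inl (i', Fin.last K)) (Sum.inl (i, 0))
  rw [SimpleGraph.dist_comm]
  simpa [psi, hne] using this

lemma dist_bot_top_same (hm : 0 < m) (i : Fin m) :
    K ≤ (gr m K).dist (Sum.inl (i, 0)) (Sum.inl (i, Fin.last K)) := by
  have := lip_le_dist (conn hm) (psi i) (psi_lip i) (Sum.inl (i, Fin.last K)) (Sum.inl (i, 0))
  rw [SimpleGraph.dist_comm]
  simpa [psi] using this

lemma bc_md (hm : 0 < m) (hK : 0 < K) : MinimalDominating (gr m K) (bc m K) := by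
  refine ⟨?_, ?_, ?_⟩
  · rintro (⟨i, j⟩ | a)
    · by_cases hj : j = Fin.last K
      · subst hj
        refine ⟨Sum.inl (i, 0), ?_⟩
        simp only [bc, if_true]
        rw [SimpleGraph.dist_comm]
        exact dist_bot_top_same hm i
      · exact ⟨Sum.inl (i, 0), by simp [bc, hj]⟩
    · exact ⟨Sum.inr a, by simp [bc]⟩
  · have key : ∀ (i : Fin m) (j : Fin (K + 1)),
        (gr m K).dist (Sum.inl (i, j)) (Sum.inl (i, Fin.last K)) ≤ K - j := by
      intro i j
      have h3 := (up_reach (K := K) i j (K - j) (by omega)).2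
      have h4 : (⟨(j : ℕ) + (K - j), by omega⟩ : Fin (K + 1)) = Fin.last K := by
        ext; simp; omega
      rw [h4] at h3
      exact h3
    rintro (⟨i, j⟩ | a)
    · refine ⟨Sum.inl (i, Fin.last K), ?_, ?_⟩
      · simp [bc, hK]
      · simp only [bc, if_true]
        have := key i j
        omega
    · refine ⟨Sum.inl (⟨0, hm⟩, Fin.last K), ?_, ?_⟩
      · simp [bc, hK]
      · simp only [bc, if_true]
        have h1 := key ⟨0, hm⟩ a.succ
        have hadj : (gr m K).Adj (Sum.inr a) (Sum.inl (⟨0, hm⟩, a.succ)) := rfl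
        have h2 := (conn (K := K) hm).dist_triangle (u := Sum.inr a)
          (v := Sum.inl (⟨0, hm⟩, a.succ)) (w := Sum.inl (⟨0, hm⟩, Fin.last K))
        have h3 := SimpleGraph.dist_eq_one_iff_adj.2 hadj
        have h4 : ((a.succ : Fin (K + 1)) : ℕ) = a + 1 := rfl
        omega
  · intro g _ hle hdom
    by_contra hne
    obtain ⟨v, hv⟩ : ∃ v, g v < bc m K v := by
      by_contra h
      push Not at h
      exact hne (funext fun v => le_antisymm (hle v) (h v))
    rcases v with ⟨i, j⟩ | a
    · by_cases hj : j = Fin.last K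
      · subst hj
        simp only [bc, if_true] at hv
        obtain ⟨w, hw0, hw⟩ := hdom (Sum.inl (i, 0))
        have hlew := hle w
        rcases w with ⟨i', j'⟩ | a'
        · by_cases hj' : j' = Fin.last K
          · subst hj'
            simp only [bc, if_true] at hlew
            by_cases hi : i' = i
            · subst hi
              have := dist_bot_top_same (K := K) hm i'
              omega
            · have := dist_bot_top_ge (K := K) hm i i' hi
              omega
          · simp only [bc, hj', if_false] at hlew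
            omega
        · simp only [bc] at hlew
          omega
      · simp [bc, hj] at hv
    · simp [bc] at hv

lemma bc_cost : ∑ v, bc m K v = m * K := by
  rw [Fintype.sum_sum_type]
  simp only [bc, Finset.sum_const_zero, add_zero]
  rw [Fintype.sum_prod_type]
  simp

/-- `ρ = ∞`: the ratio `Γ_b(G)/Γ(G)` over connected graphs is unbounded. -/
theorem result : rho = ⊤ := by
  apply ENNReal.eq_top_of_forall_nnreal_le
  intro r
  obtain ⟨C, hC⟩ := exists_nat_ge r
  have hC1 : (r : ENNReal) ≤ (C + 1 : ℕ) := by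
    have : (r : ENNReal) ≤ (C : ENNReal) := by exact_mod_cast ENNReal.coe_le_coe.2 hC
    exact this.trans (by exact_mod_cast Nat.le_succ C)
  set m := 5 * (C + 1) with hm
  have hm0 : 0 < m := by omega
  have hconn : (gr m m).Connected := conn hm0
  have hcard : 2 ≤ Fintype.card (W m m) := by
    simp [W]
    nlinarith
  refine hC1.trans ?_
  refine le_trans ?_ (le_iSup _ (W m m))
  refine le_trans ?_ (le_iSup _ (inferInstance : Fintype (W m m)))
  refine le_trans ?_ (le_iSup _ (gr m m))
  refine le_trans ?_ (le_iSup _ hconn)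
  refine le_trans ?_ (le_iSup _ hcard)
  have h1 : m * m ≤ upperBroadcast (gr m m) := by
    have := le_upperBroadcast hconn (bc_md (m := m) (K := m) hm0 hm0)
    rwa [bc_cost] at this
  obtain ⟨D, hD, hDc⟩ := upperDom_spec (G := gr m m)
  have h2 : upperDom (gr m m) ≤ 3 * m + 2 := by
    rw [← hDc]
    have := dom_bound hD
    omega
  have h3 : 0 < upperDom (gr m m) := by
    rw [← hDc]
    have : Nonempty (W m m) := hconn.nonempty
    exact hD.1.pos
  rw [ENNReal.le_div_iff_mul_le (Or.inl (by exact_mod_cast h3.ne')) (Or.inl (ENNReal.natCast_ne_top _))]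
  have h4 : (C + 1) * upperDom (gr m m) ≤ upperBroadcast (gr m m) := by
    calc (C + 1) * upperDom (gr m m) ≤ (C + 1) * (3 * m + 2) := Nat.mul_le_mul_left _ h2
      _ ≤ (C + 1) * (5 * m) := Nat.mul_le_mul_left _ (by omega)
      _ = m * m := by rw [hm]; ring
      _ ≤ _ := h1
  exact_mod_cast h4

end Pool.Agent.Results.MP_9b093e_co.RatioInfinite
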